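import Mathlib
import Pool.Agent.Q71.UC.Stmt
import Pool.Agent.Q71.UC.Main

/-!
# Strong unique continuation for `|∂̄ u| ≤ V |u|` with critical potential

The definitions (`LocLp`, `IsTest`, `HasWeakDeriv`, `W1Loc`, `dbar`, `dbarNorm`, `eball`,
`VanishesToInfiniteOrder`) are in `Pool.Agent.Q71.UC.Stmt`.
-/

open MeasureTheory Q71.SUCP

namespace Pool.Agent.Results.MP_b3ccf3_an.CriticalSUCP

/-- Let `n ≥ 2`, `m ≥ 1`, `Ω ⊆ ℂⁿ` open and connected, `p = 4n/(2n+1)`, `p' = 4n/(2n-1)`.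
If `u ∈ W^{1,p}_loc(Ω; ℂᵐ)` satisfies `|∂̄ u| ≤ V |u|` a.e. for some `V ∈ L^{2n}_loc(Ω)` and
`u` vanishes to infinite order in the `L^{p'}` sense at some point of `Ω`, then `u = 0`. -/
theorem result (n m : ℕ) (hn : 2 ≤ n) (hm : 1 ≤ m) (Ω : Set (Fin n → ℂ)) (hΩ : IsOpen Ω)
    (hΩc : IsConnected Ω) (u : (Fin n → ℂ) → EuclideanSpace ℂ (Fin m))
    (ux uy : Fin n → (Fin n → ℂ) → EuclideanSpace ℂ (Fin m))
    (hu : W1Loc Ω (4 * n / (2 * n + 1)) u ux uy)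
    (V : (Fin n → ℂ) → ℝ) (hV : LocLp Ω (2 * n) V)
    (hineq : ∀ᵐ z ∂(volume.restrict Ω), dbarNorm ux uy z ≤ V z * ‖u z‖)
    (z0 : Fin n → ℂ) (hz0 : z0 ∈ Ω)
    (hvan : VanishesToInfiniteOrder (4 * n / (2 * n - 1)) u z0) :
    ∀ᵐ z ∂(volume.restrict Ω), u z = 0 :=
  Q71.UC.main n m hn hm Ω hΩ hΩc u ux uy hu V hV hineq z0 hz0 hvan

end Pool.Agent.Results.MP_b3ccf3_an.CriticalSUCP
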